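import Pool.Agent.J6H36.BSV.Defs

/-!
# Module INT of project BSV (helper36)

A class which is defined over `A` and over a ring that is independent of `A` over `k` is defined over `k`.
-/

set_option autoImplicit false

universe u

namespace Pool.Agent.J6H35.BSV

open Pool.Agent.J6H36.BSV

theorem t_INT : S_INT.{u} := by
  intro hspec T i n k A Ω _ _ _ _ _ _ _ _ _ J _ t ht x Z hZ y hxy
  classical
  obtain ⟨s, x₀, hx₀⟩ := T.lift i n A x
  obtain ⟨Uf, hUf⟩ : ∃ Uf : Finset Ω, Uf = s.image (algebraMap A Ω) ∪ Z := ⟨_, rfl⟩
  have hZU : Subring.closure (Z : Set Ω) ≤ Subring.closure (Uf : Set Ω) :=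
    Subring.closure_mono (by
      rw [hUf]
      intro z hz
      simp only [Finset.coe_union, Set.mem_union]
      exact Or.inr hz)
  have hsU : ∀ a : Subring.closure (s : Set A),
      ((algebraMap A Ω).comp (Subring.closure (s : Set A)).subtype) a ∈
        Subring.closure (Uf : Set Ω) := by
    intro a
    have h1 : Subring.closure (s : Set A) ≤
        (Subring.closure (Uf : Set Ω)).comap (algebraMap A Ω) := by
      rw [Subring.closure_le]
      intro b hb
      refine Subring.subset_closure ?_
      rw [hUf]
      simp only [Finset.coe_union, Finset.coe_image, Set.mem_union]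
      exact Or.inl ⟨b, hb, rfl⟩
    exact h1 a.2
  let f : Subring.closure (s : Set A) →+* Subring.closure (Uf : Set Ω) :=
    ((algebraMap A Ω).comp (Subring.closure (s : Set A)).subtype).codRestrict
      (Subring.closure (Uf : Set Ω)) hsU
  have hf : ∀ a, ((f a : Subring.closure (Uf : Set Ω)) : Ω) = algebraMap A Ω (a : A) := fun a => rfl
  have hd : T.map i n (Subring.closure (Uf : Set Ω)).subtype
      (T.map i n f x₀ - T.map i n (Subring.inclusion hZU) y) = 0 := by
    rw [map_sub, ← T.map_comp, ← T.map_comp, sub_eq_zero]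
    have e1 : (Subring.closure (Uf : Set Ω)).subtype.comp f =
        (algebraMap A Ω).comp (Subring.closure (s : Set A)).subtype := by
      ext a; rfl
    have e2 : (Subring.closure (Uf : Set Ω)).subtype.comp (Subring.inclusion hZU) =
        (Subring.closure (Z : Set Ω)).subtype := by
      ext a; rfl
    rw [e1, e2, T.map_comp, hx₀, hxy]
  obtain ⟨C, hUC, hC⟩ := T.ker i n Ω Uf _ hd
  rw [map_sub, ← T.map_comp, ← T.map_comp, sub_eq_zero] at hC
  obtain ⟨ψ, hψ⟩ := hspec k A Ω J t ht C Z hZ
  have hCD : ∀ c : Subring.closure (C : Set Ω),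
      (Subring.closure (C : Set Ω)).subtype c ∈
        Algebra.adjoin A ((C : Set Ω) ∪ (Z : Set Ω) ∪ Set.range t) := by
    intro c
    have h1 : Subring.closure (C : Set Ω) ≤
        (Algebra.adjoin A ((C : Set Ω) ∪ (Z : Set Ω) ∪ Set.range t)).toSubring := by
      rw [Subring.closure_le]
      intro b hb
      exact Algebra.subset_adjoin (Or.inl (Or.inl hb))
    exact h1 c.2
  let g : Subring.closure (C : Set Ω) →+*
      Algebra.adjoin A ((C : Set Ω) ∪ (Z : Set Ω) ∪ Set.range t) :=
    (Subring.closure (C : Set Ω)).subtype.codRestrict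
      (Algebra.adjoin A ((C : Set Ω) ∪ (Z : Set Ω) ∪ Set.range t)) hCD
  let φ : Subring.closure (C : Set Ω) →+* A := (ψ : _ →+* A).comp g
  have hφ1 : φ.comp ((Subring.inclusion hUC).comp f) = (Subring.closure (s : Set A)).subtype := by
    ext a
    have e : g (Subring.inclusion hUC (f a)) =
        algebraMap A (Algebra.adjoin A ((C : Set Ω) ∪ (Z : Set Ω) ∪ Set.range t)) (a : A) := by
      apply Subtype.ext
      rfl
    change ψ (g (Subring.inclusion hUC (f a))) = (a : A)
    rw [e, AlgHom.commutes]
    rfl
  have hZ2 : ∀ c : Subring.closure (Z : Set Ω),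
      (φ.comp ((Subring.inclusion hUC).comp (Subring.inclusion hZU))) c ∈
        (algebraMap k A).range := by
    intro c
    have h1 : Subring.closure (Z : Set Ω) ≤
        (((algebraMap k A).range.comap
          (φ.comp ((Subring.inclusion hUC).comp (Subring.inclusion hZU)))).map
            (Subring.closure (Z : Set Ω)).subtype) := by
      rw [Subring.closure_le]
      intro b hb
      refine ⟨⟨b, Subring.subset_closure hb⟩, ?_, rfl⟩
      obtain ⟨r, hr⟩ := hψ (g (Subring.inclusion hUC (Subring.inclusion hZU
        ⟨b, Subring.subset_closure hb⟩))) hb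
      exact ⟨r, hr⟩
    obtain ⟨c', hc', e⟩ := h1 c.2
    have : c' = c := Subtype.ext e
    rw [← this]
    exact hc'
  let ρ' : Subring.closure (Z : Set Ω) →+* (algebraMap k A).range :=
    (φ.comp ((Subring.inclusion hUC).comp (Subring.inclusion hZU))).codRestrict _ hZ2
  let e : k ≃+* (algebraMap k A).range :=
    RingEquiv.ofBijective (algebraMap k A).rangeRestrict
      ⟨fun a b hab => (algebraMap k A).injective (congrArg Subtype.val hab),
        (algebraMap k A).rangeRestrict_surjective⟩
  let ρ : Subring.closure (Z : Set Ω) →+* k := (e.symm : _ →+* k).comp ρ'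
  have hρ : (algebraMap k A).comp ρ =
      φ.comp ((Subring.inclusion hUC).comp (Subring.inclusion hZU)) := by
    ext c
    have h1 : e (e.symm (ρ' c)) = ρ' c := e.apply_symm_apply _
    have h2 := congrArg Subtype.val h1
    exact h2
  refine ⟨T.map i n ρ y, ?_⟩
  rw [← T.map_comp, hρ, T.map_comp, ← hC, ← T.map_comp, hφ1, hx₀]

end Pool.Agent.J6H35.BSV
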